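import Mathlib
import Pool.Agent.H63.OB.Defs

/-!
A 2-adic lower bound: partitions of `[n]^d` into odd proper boxes all of whose (weighted) average
slice sizes are integers have at least `3^d` parts.
-/

set_option autoImplicit false

namespace Pool.Agent.H34.Reg

open Pool.Agent.H63.OB Finset

/-- The number of boxes of `P` meeting the slice `{z : z i = x i for all i ∈ I}`. -/
def sliceCount {n d : ℕ} (P : Finset (Box n d)) (I : Finset (Fin d)) (x : Fin d → Fin n) : ℕ :=
  (P.filter (fun b => ∀ i ∈ I, x i ∈ b i)).card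

/-- The number of boxes meeting a slice depends only on which coordinates are fixed. -/
def SliceRegular {n d : ℕ} (P : Finset (Box n d)) : Prop :=
  ∀ (I : Finset (Fin d)) (x y : Fin d → Fin n), sliceCount P I x = sliceCount P I y

variable {n d : ℕ}

/-- indicator of `y ∈ b i` -/
def e (b : Box n d) (i : Fin d) (y : Fin n) : ℤ := if y ∈ b i then 1 else 0

/-- factor -/
def fac (J : Finset (Fin d)) (b : Box n d) (i : Fin d) (y : Fin n) : ℤ :=
  if i ∈ J then 1 - e b i y else e b i y

lemma sliceCount_eq (P : Finset (Box n d)) (I : Finset (Fin d)) (x : Fin d → Fin n) :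
    (sliceCount P I x : ℤ) = ∑ b ∈ P, ∏ i ∈ I, e b i (x i) := by
  unfold sliceCount e
  rw [Finset.card_filter]
  push_cast
  refine Finset.sum_congr rfl fun b _ => ?_
  rw [Finset.prod_boole]
  congr

lemma sum_fac (b : Box n d) (x : Fin d → Fin n) :
    ∑ J ∈ (univ : Finset (Fin d)).powerset, ∏ i, fac J b i (x i) = 1 := by
  have h := Finset.prod_add (fun i => 1 - e b i (x i)) (fun i => e b i (x i))
    (univ : Finset (Fin d))
  simp only [sub_add_cancel, Finset.prod_const_one] at h
  rw [h]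
  refine Finset.sum_congr rfl fun J _ => ?_
  rw [← Finset.prod_sdiff (Finset.subset_univ J), mul_comm]
  congr 1
  · refine Finset.prod_congr rfl fun i hi => ?_
    simp [fac, hi]
  · refine Finset.prod_congr rfl fun i hi => ?_
    have : i ∉ J := by simpa using hi
    simp [fac, this]

lemma prod_fac (J : Finset (Fin d)) (b : Box n d) (x : Fin d → Fin n) :
    ∏ i, fac J b i (x i) =
      ∑ K ∈ J.powerset, (-1 : ℤ) ^ K.card * ∏ i ∈ Jᶜ ∪ K, e b i (x i) := by
  rw [← Finset.prod_sdiff (Finset.subset_univ J)]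
  have h1 : ∏ i ∈ univ \ J, fac J b i (x i) = ∏ i ∈ Jᶜ, e b i (x i) := by
    rw [Finset.compl_eq_univ_sdiff]
    refine Finset.prod_congr rfl fun i hi => ?_
    have : i ∉ J := by simpa using hi
    simp [fac, this]
  have h2 : ∏ i ∈ J, fac J b i (x i) = ∏ i ∈ J, (-e b i (x i) + 1) := by
    refine Finset.prod_congr rfl fun i hi => ?_
    simp only [fac, hi, if_true]
    ring
  rw [h1, h2, Finset.prod_add, Finset.mul_sum]
  refine Finset.sum_congr rfl fun K hK => ?_
  have hKJ : K ⊆ J := Finset.mem_powerset.mp hK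
  have hd : Disjoint Jᶜ K := by
    rw [Finset.disjoint_left]
    intro a ha haK
    exact (Finset.mem_compl.mp ha) (hKJ haK)
  rw [Finset.prod_union hd, Finset.prod_const_one, mul_one, Finset.prod_neg]
  ring

/-- total weight of the points avoiding/meeting pattern `J` -/
def S (P : Finset (Box n d)) (w : Fin d → Fin n → ℕ) (J : Finset (Fin d)) : ℤ :=
  ∑ x : Fin d → Fin n, (∏ i, (w i (x i) : ℤ)) * ∑ b ∈ P, ∏ i, fac J b i (x i)

lemma S_eq (P : Finset (Box n d)) (w : Fin d → Fin n → ℕ) (J : Finset (Fin d)) :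
    S P w J = ∑ b ∈ P, ∏ i, ∑ y, (w i y : ℤ) * fac J b i y := by
  unfold S
  simp_rw [Finset.mul_sum]
  rw [Finset.sum_comm]
  refine Finset.sum_congr rfl fun b _ => ?_
  rw [Finset.prod_univ_sum, Fintype.piFinset_univ]
  refine Finset.sum_congr rfl fun x _ => ?_
  rw [Finset.prod_mul_distrib]

lemma sum_S (P : Finset (Box n d)) (w : Fin d → Fin n → ℕ) :
    ∑ J ∈ (univ : Finset (Fin d)).powerset, S P w J =
      (∏ i, ∑ y, (w i y : ℤ)) * P.card := by
  unfold S
  rw [Finset.sum_comm]
  have : ∀ x : Fin d → Fin n, ∑ J ∈ (univ : Finset (Fin d)).powerset,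
      (∏ i, (w i (x i) : ℤ)) * ∑ b ∈ P, ∏ i, fac J b i (x i) =
      (∏ i, (w i (x i) : ℤ)) * P.card := by
    intro x
    rw [← Finset.mul_sum, Finset.sum_comm]
    simp_rw [sum_fac]
    simp
  simp_rw [this]
  rw [← Finset.sum_mul, Finset.prod_univ_sum, Fintype.piFinset_univ]

lemma dvd_S (P : Finset (Box n d)) (w : Fin d → Fin n → ℕ) (q : ℕ) (J : Finset (Fin d))
    (h : ∀ I : Finset (Fin d), (∏ i, ∑ y, w i y) ∣
      q * ∑ x : Fin d → Fin n, (∏ i, w i (x i)) * sliceCount P I x) :
    (∏ i, ∑ y, (w i y : ℤ)) ∣ q * S P w J := by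
  have h1 : S P w J = ∑ K ∈ J.powerset, (-1 : ℤ) ^ K.card *
      ∑ x : Fin d → Fin n, (∏ i, (w i (x i) : ℤ)) * (sliceCount P (Jᶜ ∪ K) x : ℤ) := by
    unfold S
    have h0 : ∀ x : Fin d → Fin n, ∑ b ∈ P, ∏ i, fac J b i (x i) =
        ∑ K ∈ J.powerset, (-1 : ℤ) ^ K.card * (sliceCount P (Jᶜ ∪ K) x : ℤ) := by
      intro x
      rw [Finset.sum_congr rfl fun b _ => prod_fac J b x, Finset.sum_comm]
      refine Finset.sum_congr rfl fun K _ => ?_
      rw [sliceCount_eq, Finset.mul_sum]
    rw [Finset.sum_congr rfl fun x _ => by rw [h0 x, Finset.mul_sum], Finset.sum_comm]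
    refine Finset.sum_congr rfl fun K _ => ?_
    rw [Finset.mul_sum]
    refine Finset.sum_congr rfl fun x _ => ?_
    ring
  rw [h1, Finset.mul_sum]
  refine Finset.dvd_sum fun K _ => ?_
  rw [mul_left_comm]
  refine Dvd.dvd.mul_left ?_ _
  have h2 := h (Jᶜ ∪ K)
  have h3 := Int.natCast_dvd_natCast.mpr h2
  push_cast at h3
  exact h3

lemma inner_pos_even (hn : Odd n) (w : Fin d → Fin n → ℕ) (hw : ∀ i y, Odd (w i y))
    (J : Finset (Fin d)) (b : Box n d) (hb : ∀ i, Odd (b i).card ∧ b i ≠ univ) (i : Fin d) :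
    0 < ∑ y, (w i y : ℤ) * fac J b i y ∧
      (i ∈ J → (2 : ℤ) ∣ ∑ y, (w i y : ℤ) * fac J b i y) := by
  have hwpos : ∀ y, 0 < (w i y : ℤ) := fun y => by exact_mod_cast (hw i y).pos
  by_cases hi : i ∈ J
  · have hs : ∑ y, (w i y : ℤ) * fac J b i y = ((∑ y ∈ (b i)ᶜ, w i y : ℕ) : ℤ) := by
      push_cast
      rw [← Finset.sum_subset (Finset.subset_univ ((b i)ᶜ))]
      · refine Finset.sum_congr rfl fun y hy => ?_
        have : y ∉ b i := Finset.mem_compl.mp hy
        simp [fac, hi, e, this]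
      · intro y _ hy
        have : y ∈ b i := by simpa using hy
        simp [fac, hi, e, this]
    rw [hs]
    constructor
    · have hne : ((b i)ᶜ).Nonempty := by
        rw [Finset.nonempty_iff_ne_empty]
        intro h0
        exact (hb i).2 (by rwa [Finset.compl_eq_empty_iff] at h0)
      have : 0 < ∑ y ∈ (b i)ᶜ, w i y := Finset.sum_pos (fun y _ => (hw i y).pos) hne
      exact_mod_cast this
    · intro _
      have hc : Even ((b i)ᶜ).card := by
        rw [Finset.card_compl, Fintype.card_fin]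
        exact Nat.Odd.sub_odd hn (hb i).1
      have hE : Even (∑ y ∈ (b i)ᶜ, w i y) := by
        rw [Finset.even_sum_iff_even_card_odd, Finset.filter_true_of_mem (fun y _ => hw i y)]
        exact hc
      exact_mod_cast hE.two_dvd
  · refine ⟨?_, fun h => absurd h hi⟩
    have hs : ∑ y, (w i y : ℤ) * fac J b i y = ((∑ y ∈ b i, w i y : ℕ) : ℤ) := by
      push_cast
      rw [← Finset.sum_subset (Finset.subset_univ (b i))]
      · refine Finset.sum_congr rfl fun y hy => ?_
        simp [fac, hi, e, hy]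
      · intro y _ hy
        simp [fac, hi, e, hy]
    rw [hs]
    have hne : (b i).Nonempty := by
      rw [← Finset.card_pos]
      exact (hb i).1.pos
    have : 0 < ∑ y ∈ b i, w i y := Finset.sum_pos (fun y _ => (hw i y).pos) hne
    exact_mod_cast this

lemma pow_dvd_prod {ι : Type*} [DecidableEq ι] (s J : Finset ι) (hJ : J ⊆ s) (f : ι → ℤ)
    (h : ∀ i ∈ J, (2 : ℤ) ∣ f i) : (2 : ℤ) ^ J.card ∣ ∏ i ∈ s, f i := by
  rw [← Finset.prod_sdiff hJ]
  refine Dvd.dvd.mul_left ?_ _
  rw [← Finset.prod_const]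
  exact Finset.prod_dvd_prod_of_dvd _ _ h

theorem main (hn : Odd n) (P : Finset (Box n d)) (hP : IsOddProperPartition P)
    (w : Fin d → Fin n → ℕ) (hw : ∀ i y, Odd (w i y)) (q : ℕ) (hq : 0 < q)
    (h : ∀ I : Finset (Fin d), (∏ i, ∑ y, w i y) ∣
      q * ∑ x : Fin d → Fin n, (∏ i, w i (x i)) * sliceCount P I x) :
    3 ^ d ≤ q * P.card := by
  have hnpos : 0 < n := hn.pos
  have hPne : P.Nonempty := by
    obtain ⟨b, hb, -⟩ := hP.2 (fun _ => ⟨0, hnpos⟩)
    exact ⟨b, hb.1⟩
  set W : ℤ := ∏ i, ∑ y, (w i y : ℤ) with hW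
  have hWodd : Odd W := by
    have h1 : ∀ i : Fin d, Odd (∑ y, (w i y : ℤ)) := by
      intro i
      have : Odd (∑ y, w i y) := by
        rw [Finset.odd_sum_iff_odd_card_odd, Finset.filter_true_of_mem (fun y _ => hw i y)]
        simpa using hn
      exact_mod_cast this
    rw [hW]
    exact Finset.prod_induction _ (fun z : ℤ => Odd z) (fun a b ha hb => ha.mul hb) odd_one
      (fun i _ => h1 i)
  have hWpos : 0 < W := by
    rw [hW]
    refine Finset.prod_pos fun i _ => ?_
    refine Finset.sum_pos (fun y _ => ?_) ⟨⟨0, hnpos⟩, Finset.mem_univ _⟩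
    exact_mod_cast (hw i y).pos
  have key : ∀ J : Finset (Fin d), (2 : ℤ) ^ J.card * W ≤ q * S P w J := by
    intro J
    have hpos : 0 < S P w J := by
      rw [S_eq]
      refine Finset.sum_pos (fun b hb => ?_) hPne
      exact Finset.prod_pos fun i _ => (inner_pos_even hn w hw J b (hP.1 b hb) i).1
    have h2 : (2 : ℤ) ^ J.card ∣ S P w J := by
      rw [S_eq]
      refine Finset.dvd_sum fun b hb => ?_
      exact pow_dvd_prod _ _ (Finset.subset_univ J) _
        (fun i hi => (inner_pos_even hn w hw J b (hP.1 b hb) i).2 hi)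
    have h3 : W ∣ q * S P w J := dvd_S P w q J h
    have hco : IsCoprime ((2 : ℤ) ^ J.card) W := by
      refine IsCoprime.pow_left ?_
      obtain ⟨k, hk⟩ := hWodd
      exact ⟨-k, 1, by rw [hk]; ring⟩
    have hq' : (0 : ℤ) < q := by exact_mod_cast hq
    exact Int.le_of_dvd (mul_pos hq' hpos) (hco.mul_dvd (h2.mul_left _) h3)
  have hsum : ∑ J ∈ (univ : Finset (Fin d)).powerset, (2 : ℤ) ^ J.card * W ≤
      W * (q * P.card) := by
    have h4 := sum_S P w
    rw [← hW] at h4
    calc ∑ J ∈ (univ : Finset (Fin d)).powerset, (2 : ℤ) ^ J.card * W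
        ≤ ∑ J ∈ (univ : Finset (Fin d)).powerset, q * S P w J :=
          Finset.sum_le_sum fun J _ => key J
      _ = W * (q * P.card) := by rw [← Finset.mul_sum, h4]; ring
  rw [← Finset.sum_mul] at hsum
  have h3 : ∑ J ∈ (univ : Finset (Fin d)).powerset, (2 : ℤ) ^ J.card = 3 ^ d := by
    have := Finset.sum_pow_mul_eq_add_pow (2 : ℤ) 1 (univ : Finset (Fin d))
    simp only [one_pow, mul_one, Finset.card_univ, Fintype.card_fin] at this
    rw [this]
    norm_num
  rw [h3, mul_comm W] at hsum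
  have := le_of_mul_le_mul_right hsum hWpos
  exact_mod_cast this

/-- slice-regular partitions have at least `3^d` parts -/
theorem regular (hn : Odd n) (P : Finset (Box n d)) (hP : IsOddProperPartition P)
    (hreg : SliceRegular P) : 3 ^ d ≤ P.card := by
  have h1 := main hn P hP (fun _ _ => 1) (fun _ _ => odd_one) 1 one_pos ?_
  · simpa using h1
  intro I
  rw [one_mul]
  have hnpos : 0 < n := hn.pos
  have : ∑ x : Fin d → Fin n, (∏ _i : Fin d, 1) * sliceCount P I x =
      n ^ d * sliceCount P I (fun _ => ⟨0, hnpos⟩) := by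
    rw [Finset.sum_congr rfl (fun x _ => by rw [hreg I x (fun _ => ⟨0, hnpos⟩)])]
    simp
  rw [this]
  simp

end Pool.Agent.H34.Reg
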