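import Mathlib
import Pool.Agent.H34.Reg.Main

set_option autoImplicit false

namespace Pool.Agent.H34.Reg

open Pool.Agent.H63.OB Finset

/-- the three blocks of `[n]` -/
def blocks (n : ℕ) (a b : Fin n) : Finset (Finset (Fin n)) := {{a}, {b}, (univ \ {a, b})}

lemma mem_blocks {n : ℕ} {a b : Fin n} {s : Finset (Fin n)} :
    s ∈ blocks n a b ↔ s = {a} ∨ s = {b} ∨ s = univ \ {a, b} := by
  simp [blocks]

lemma card_third {n : ℕ} {a b : Fin n} (hab : a ≠ b) : (univ \ {a, b} : Finset (Fin n)).card = n - 2 := by
  rw [Finset.card_sdiff_of_subset (Finset.subset_univ _), Finset.card_pair hab]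
  simp

lemma blocks_odd {n : ℕ} (hn : Odd n) (h3 : 3 ≤ n) {a b : Fin n} (hab : a ≠ b)
    {s : Finset (Fin n)} (hs : s ∈ blocks n a b) : Odd s.card ∧ s ≠ univ := by
  have hc : s.card = 1 ∨ s.card = n - 2 := by
    rcases mem_blocks.mp hs with h | h | h
    · left; rw [h]; simp
    · left; rw [h]; simp
    · right; rw [h]; exact card_third hab
  constructor
  · rcases hc with h | h
    · rw [h]; exact odd_one
    · rw [h]
      obtain ⟨k, hk⟩ := hn
      exact ⟨k - 1, by omega⟩
  · intro h
    have : s.card = n := by rw [h]; simp
    omega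

lemma exists_unique_block {n : ℕ} {a b : Fin n} (hab : a ≠ b) (y : Fin n) :
    ∃! s, s ∈ blocks n a b ∧ y ∈ s := by
  by_cases hya : y = a
  · refine ⟨{a}, ⟨mem_blocks.mpr (Or.inl rfl), by simp [hya]⟩, ?_⟩
    rintro s ⟨hs, hy⟩
    rcases mem_blocks.mp hs with h | h | h
    · exact h
    · rw [h, Finset.mem_singleton] at hy
      exact absurd (hya.symm.trans hy) hab
    · rw [h] at hy
      simp [hya] at hy
  · by_cases hyb : y = b
    · refine ⟨{b}, ⟨mem_blocks.mpr (Or.inr (Or.inl rfl)), by simp [hyb]⟩, ?_⟩
      rintro s ⟨hs, hy⟩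
      rcases mem_blocks.mp hs with h | h | h
      · rw [h, Finset.mem_singleton] at hy
        exact absurd hy hya
      · exact h
      · rw [h] at hy
        simp [hyb] at hy
    · refine ⟨univ \ {a, b}, ⟨mem_blocks.mpr (Or.inr (Or.inr rfl)), by simp [hya, hyb]⟩, ?_⟩
      rintro s ⟨hs, hy⟩
      rcases mem_blocks.mp hs with h | h | h
      · rw [h, Finset.mem_singleton] at hy
        exact absurd hy hya
      · rw [h, Finset.mem_singleton] at hy
        exact absurd hy hyb
      · exact h

lemma card_blocks {n : ℕ} (h3 : 3 ≤ n) {a b : Fin n} (hab : a ≠ b) : (blocks n a b).card = 3 := by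
  have h1 : ({a} : Finset (Fin n)) ≠ {b} := by simpa using hab
  have hcpos : 0 < (univ \ {a, b} : Finset (Fin n)).card := by rw [card_third hab]; omega
  have h2 : ({a} : Finset (Fin n)) ≠ univ \ {a, b} := by
    intro h
    have : a ∈ (univ \ {a, b} : Finset (Fin n)) := by rw [← h]; simp
    simp at this
  have h4 : ({b} : Finset (Fin n)) ≠ univ \ {a, b} := by
    intro h
    have : b ∈ (univ \ {a, b} : Finset (Fin n)) := by rw [← h]; simp
    simp at this
  unfold blocks
  rw [Finset.card_insert_of_notMem, Finset.card_pair h4]
  simp [h1, h2]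

theorem sharp {n : ℕ} (d : ℕ) (hn : Odd n) (h3 : 3 ≤ n) :
    ∃ P : Finset (Box n d), IsOddProperPartition P ∧ SliceRegular P ∧ P.card = 3 ^ d := by
  classical
  let a : Fin n := ⟨0, by omega⟩
  let b : Fin n := ⟨1, by omega⟩
  have hab : a ≠ b := by simp [a, b]
  refine ⟨Fintype.piFinset (fun _ : Fin d => blocks n a b), ⟨?_, ?_⟩, ?_, ?_⟩
  · intro c hc i
    exact blocks_odd hn h3 hab (Fintype.mem_piFinset.mp hc i)
  · intro x
    choose f hf hfu using fun i => exists_unique_block hab (x i)
    refine ⟨f, ⟨Fintype.mem_piFinset.mpr fun i => (hf i).1, fun i => (hf i).2⟩, ?_⟩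
    rintro c ⟨hc, hx⟩
    funext i
    exact hfu i (c i) ⟨Fintype.mem_piFinset.mp hc i, hx i⟩
  · have key : ∀ (I : Finset (Fin d)) (x : Fin d → Fin n),
        sliceCount (Fintype.piFinset (fun _ : Fin d => blocks n a b)) I x = 3 ^ (d - I.card) := by
      intro I x
      unfold sliceCount
      have h1 : (Fintype.piFinset (fun _ : Fin d => blocks n a b)).filter
          (fun c => ∀ i ∈ I, x i ∈ c i) =
          Fintype.piFinset (fun i : Fin d =>
            if i ∈ I then (blocks n a b).filter (fun s => x i ∈ s) else blocks n a b) := by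
        ext c
        simp only [Finset.mem_filter, Fintype.mem_piFinset]
        constructor
        · rintro ⟨h1, h2⟩ i
          by_cases hi : i ∈ I
          · simp only [hi, if_true, Finset.mem_filter]
            exact ⟨h1 i, h2 i hi⟩
          · simp only [hi, if_false]
            exact h1 i
        · intro h
          refine ⟨fun i => ?_, fun i hi => ?_⟩
          · have := h i
            by_cases hi : i ∈ I
            · simp only [hi, if_true, Finset.mem_filter] at this
              exact this.1
            · simpa only [hi, if_false] using this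
          · have := h i
            simp only [hi, if_true, Finset.mem_filter] at this
            exact this.2
      rw [h1, Fintype.card_piFinset]
      have h2 : ∀ i : Fin d, (if i ∈ I then (blocks n a b).filter (fun s => x i ∈ s)
          else blocks n a b).card = if i ∈ I then 1 else 3 := by
        intro i
        by_cases hi : i ∈ I
        · simp only [hi, if_true]
          obtain ⟨s, hs, hsu⟩ := exists_unique_block hab (x i)
          rw [Finset.card_eq_one]
          refine ⟨s, ?_⟩
          ext t
          simp only [Finset.mem_filter, Finset.mem_singleton]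
          exact ⟨fun h => hsu t h, fun h => by rw [h]; exact hs⟩
        · simp only [hi, if_false]
          exact card_blocks h3 hab
      rw [Finset.prod_congr rfl fun i _ => h2 i, Finset.prod_ite]
      simp only [Finset.prod_const_one, one_mul, Finset.prod_const]
      congr 1
      have h5 : (univ : Finset (Fin d)).filter (fun i => i ∉ I) = Iᶜ := by
        ext i; simp
      rw [h5, Finset.card_compl, Fintype.card_fin]
    intro I x y
    rw [key, key]
  · rw [Fintype.card_piFinset]
    simp [card_blocks h3 hab]

end Pool.Agent.H34.Reg
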