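import Mathlib
import Pool.Agent.H34.Reg.Main

set_option autoImplicit false

namespace Pool.Agent.H34.Reg

open Pool.Agent.H63.OB Finset

variable {n d : ℕ}

lemma sum_e (b : Box n d) (i : Fin d) : ∑ y, e b i y = ((b i).card : ℤ) := by
  simp [e]

/-- mixed moments of the side sizes over a slice -/
lemma moment (P : Finset (Box n d)) (I L : Finset (Fin d)) (hL : L ⊆ Iᶜ) (x : Fin d → Fin n)
    (c : ℕ) (hsl : ∀ z : Fin d → Fin n, sliceCount P (I ∪ L) z = c) :
    ∑ b ∈ P, (∏ i ∈ I, e b i (x i)) * ∏ i ∈ L, ((b i).card : ℤ) = (n : ℤ) ^ L.card * c := by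
  classical
  have hdisj : Disjoint I L := by
    rw [Finset.disjoint_left]
    intro a ha haL
    exact (Finset.mem_compl.mp (hL haL)) ha
  set t : Fin d → Finset (Fin n) := fun i => if i ∈ L then univ else {x i} with ht
  have h1 : ∑ z ∈ Fintype.piFinset t, ((sliceCount P (I ∪ L) z : ℕ) : ℤ) =
      (n : ℤ) ^ L.card * c := by
    rw [Finset.sum_congr rfl fun z _ => by rw [hsl z]]
    rw [Finset.sum_const, Fintype.card_piFinset]
    have : ∀ i, (t i).card = if i ∈ L then n else 1 := by
      intro i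
      by_cases hi : i ∈ L <;> simp [ht, hi]
    rw [Finset.prod_congr rfl fun i _ => this i]
    simp
  rw [← h1]
  have h2 : ∀ z : Fin d → Fin n, ((sliceCount P (I ∪ L) z : ℕ) : ℤ) =
      ∑ b ∈ P, ∏ i, (if i ∈ I ∪ L then e b i (z i) else 1) := by
    intro z
    rw [sliceCount_eq]
    refine Finset.sum_congr rfl fun b _ => ?_
    rw [Finset.prod_ite_mem, Finset.univ_inter]
  rw [Finset.sum_congr rfl fun z _ => h2 z, Finset.sum_comm]
  refine Finset.sum_congr rfl fun b _ => ?_
  rw [← Finset.prod_univ_sum t (fun i y => if i ∈ I ∪ L then e b i y else 1)]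
  have h3 : ∀ i, ∑ y ∈ t i, (if i ∈ I ∪ L then e b i y else (1 : ℤ)) =
      (if i ∈ I then e b i (x i) else 1) * (if i ∈ L then ((b i).card : ℤ) else 1) := by
    intro i
    by_cases hi : i ∈ L
    · have hiI : i ∉ I := fun h => (Finset.disjoint_left.mp hdisj h) hi
      simp only [ht, hi, if_true, Finset.mem_union, or_true, hiI, if_false, one_mul]
      exact sum_e b i
    · by_cases hiI : i ∈ I
      · simp [ht, hi, hiI]
      · simp [ht, hi, hiI]
  rw [Finset.prod_congr rfl fun i _ => h3 i, Finset.prod_mul_distrib, Finset.prod_ite_mem,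
    Finset.prod_ite_mem, Finset.univ_inter, Finset.univ_inter]

lemma affine (P : Finset (Box n d)) (I : Finset (Fin d)) (x : Fin d → Fin n) (α β : Fin d → ℤ)
    (hsl : ∀ L ⊆ Iᶜ, L.Nonempty → ∀ z : Fin d → Fin n,
      sliceCount P (I ∪ L) z = 3 ^ (Iᶜ.card - L.card)) :
    ∑ b ∈ P, (∏ i ∈ I, e b i (x i)) * ∏ i ∈ Iᶜ, (β i * ((b i).card : ℤ) + α i) =
      (∏ i ∈ Iᶜ, α i) * ((sliceCount P I x : ℤ) - 3 ^ Iᶜ.card) +
        ∏ i ∈ Iᶜ, (β i * n + α i * 3) := by
  classical
  have h1 : ∀ b ∈ P, (∏ i ∈ I, e b i (x i)) * ∏ i ∈ Iᶜ, (β i * ((b i).card : ℤ) + α i) =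
      ∑ L ∈ (Iᶜ).powerset, ((∏ i ∈ L, β i) * ∏ i ∈ Iᶜ \ L, α i) *
        ((∏ i ∈ I, e b i (x i)) * ∏ i ∈ L, ((b i).card : ℤ)) := by
    intro b _
    rw [Finset.prod_add, Finset.mul_sum]
    refine Finset.sum_congr rfl fun L _ => ?_
    rw [Finset.prod_mul_distrib]
    ring
  rw [Finset.sum_congr rfl h1, Finset.sum_comm]
  have h2 : ∀ L ∈ (Iᶜ).powerset, ∑ b ∈ P, ((∏ i ∈ L, β i) * ∏ i ∈ Iᶜ \ L, α i) *
        ((∏ i ∈ I, e b i (x i)) * ∏ i ∈ L, ((b i).card : ℤ)) =
      (if L = ∅ then (∏ i ∈ Iᶜ, α i) * ((sliceCount P I x : ℤ) - 3 ^ Iᶜ.card) else 0) +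
        (∏ i ∈ L, (β i * n)) * ∏ i ∈ Iᶜ \ L, (α i * 3) := by
    intro L hL
    have hL' : L ⊆ Iᶜ := Finset.mem_powerset.mp hL
    rw [← Finset.mul_sum]
    have h3 : (∏ i ∈ L, (β i * n)) * ∏ i ∈ Iᶜ \ L, (α i * 3) =
        ((∏ i ∈ L, β i) * ∏ i ∈ Iᶜ \ L, α i) * ((n : ℤ) ^ L.card * 3 ^ (Iᶜ.card - L.card)) := by
      rw [Finset.prod_mul_distrib, Finset.prod_mul_distrib, Finset.prod_const, Finset.prod_const,
        Finset.card_sdiff_of_subset hL']
      ring
    rw [h3]
    by_cases hLe : L = ∅
    · subst hLe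
      simp only [Finset.prod_empty, mul_one, one_mul, if_true, Finset.sdiff_empty,
        Finset.card_empty, pow_zero, Nat.sub_zero]
      rw [← sliceCount_eq]
      ring
    · rw [if_neg hLe, zero_add]
      have hne : L.Nonempty := Finset.nonempty_iff_ne_empty.mpr hLe
      rw [moment P I L hL' x _ (hsl L hL' hne)]
      push_cast
      ring
  rw [Finset.sum_congr rfl h2, Finset.sum_add_distrib, Finset.sum_ite_eq' , if_pos (Finset.empty_mem_powerset _),
    ← Finset.prod_add]

lemma sq9 (m : ℤ) (h : 2 ≤ m) : 9 ≤ (m + 1) ^ 2 := by nlinarith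

lemma prod_ite_card {ι : Type*} [DecidableEq ι] (C : Finset ι) (p : ι → Prop) [DecidablePred p]
    (A B : ℤ) (r : ℕ) (h : (C.filter p).card = r) :
    ∏ i ∈ C, (if p i then A else B) = A ^ r * B ^ (C.card - r) := by
  rw [Finset.prod_ite, Finset.prod_const, Finset.prod_const, h]
  congr 2
  have := Finset.card_filter_add_card_filter_not (s := C) (p := p)
  omega

/-- In a partition all of whose sides have size `1` or `n - 2` and all of whose lines meet exactly
three boxes, every slice has the size of the product partition. -/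
theorem thin_slices (P : Finset (Box n d)) (hP : IsOddProperPartition P) (h5 : 5 ≤ n)
    (hsize : ∀ b ∈ P, ∀ i, (b i).card = 1 ∨ (b i).card = n - 2)
    (hline : ∀ (i : Fin d) (x : Fin d → Fin n), sliceCount P {i}ᶜ x = 3) :
    ∀ (k : ℕ) (I : Finset (Fin d)), Iᶜ.card = k → ∀ x : Fin d → Fin n,
      sliceCount P I x = 3 ^ k := by
  classical
  intro k
  induction k using Nat.strong_induction_on with
  | _ k ih =>
    intro I hI x
    rcases Nat.lt_or_ge k 2 with hk | hk
    · have hk' : k = 0 ∨ k = 1 := by omega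
      rcases hk' with hk' | hk'
      · subst hk'
        have hIu : I = univ := by
          rw [Finset.card_eq_zero] at hI
          exact (Finset.compl_eq_empty_iff I).mp hI
        subst hIu
        obtain ⟨b, ⟨hb, hx⟩, hu⟩ := hP.2 x
        unfold sliceCount
        rw [pow_zero, Finset.card_eq_one]
        refine ⟨b, ?_⟩
        ext c
        simp only [Finset.mem_filter, Finset.mem_univ, forall_true_left, Finset.mem_singleton]
        constructor
        · rintro ⟨h1, h2⟩
          exact hu c ⟨h1, h2⟩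
        · rintro rfl
          exact ⟨hb, hx⟩
      · subst hk'
        rw [Finset.card_eq_one] at hI
        obtain ⟨i, hi⟩ := hI
        have : I = {i}ᶜ := by rw [← hi, compl_compl]
        rw [this, hline, pow_one]
    · -- the affine identity
      have hsl : ∀ L ⊆ Iᶜ, L.Nonempty → ∀ z : Fin d → Fin n,
          sliceCount P (I ∪ L) z = 3 ^ (Iᶜ.card - L.card) := by
        intro L hL hne z
        have hc : (I ∪ L)ᶜ.card = Iᶜ.card - L.card := by
          have : (I ∪ L)ᶜ = Iᶜ \ L := by
            ext a; simp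
          rw [this, Finset.card_sdiff_of_subset hL]
        have hlt : Iᶜ.card - L.card < k := by
          have h1 : 0 < L.card := Finset.card_pos.mpr hne
          omega
        exact ih _ hlt (I ∪ L) hc z
      have haff := fun α β => affine P I x α β hsl
      set t : ℤ := (sliceCount P I x : ℤ) - 3 ^ Iᶜ.card with ht
      set m : ℤ := (n : ℤ) - 3 with hm
      have hm2 : 2 ≤ m := by
        have : (5 : ℤ) ≤ n := by exact_mod_cast h5
        omega
      have hsz : ∀ b ∈ P, ∀ i, ((b i).card : ℤ) = 1 ∨ ((b i).card : ℤ) = m + 1 := by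
        intro b hb i
        rcases hsize b hb i with h | h
        · left; rw [h]; norm_num
        · right; rw [h, hm]
          have : (2 : ℕ) ≤ n := by omega
          push_cast [Nat.cast_sub this]
          ring
      have he : ∀ (b : Box n d) i y, 0 ≤ e b i y := by
        intro b i y; unfold e; split_ifs <;> norm_num
      -- (1)
      have e1 := haff (fun _ => -1) (fun _ => 1)
      -- (2), (3)
      obtain ⟨j, hj, l, hl, hjl⟩ := Finset.one_lt_card.mp (by omega : 1 < Iᶜ.card)
      have e2 := haff (fun i => if i = j then m + 1 else -1) (fun i => if i = j then -1 else 1)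
      have e3 := haff (fun i => if i = j ∨ i = l then m + 1 else -1)
        (fun i => if i = j ∨ i = l then -1 else 1)
      have hk1 : (Iᶜ.filter (fun i => i = j)).card = 1 := by
        rw [Finset.card_eq_one]
        refine ⟨j, ?_⟩
        ext a
        simp only [Finset.mem_filter, Finset.mem_singleton]
        exact ⟨fun h => h.2, fun h => ⟨by rw [h]; exact hj, h⟩⟩
      have hk2 : (Iᶜ.filter (fun i => i = j ∨ i = l)).card = 2 := by
        have : Iᶜ.filter (fun i => i = j ∨ i = l) = {j, l} := by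
          ext a
          simp only [Finset.mem_filter, Finset.mem_insert, Finset.mem_singleton]
          constructor
          · exact fun h => h.2
          · rintro (h | h)
            · exact ⟨by rw [h]; exact hj, Or.inl h⟩
            · exact ⟨by rw [h]; exact hl, Or.inr h⟩
        rw [this, Finset.card_pair hjl]
      have hnm : (n : ℤ) = m + 3 := by rw [hm]; ring
      -- evaluate the right-hand sides
      have r1 : ∏ i ∈ Iᶜ, ((1 : ℤ) * n + -1 * 3) = m ^ k := by
        rw [Finset.prod_const, hI]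
        congr 1
        rw [hnm]; ring
      have r1' : ∏ _i ∈ Iᶜ, (-1 : ℤ) = (-1) ^ k := by rw [Finset.prod_const, hI]
      have r2 : ∏ i ∈ Iᶜ, ((if i = j then (-1 : ℤ) else 1) * n +
          (if i = j then m + 1 else -1) * 3) = (2 * m) * m ^ (k - 1) := by
        rw [← hI, ← pow_one (2 * m), ← prod_ite_card Iᶜ (fun i => i = j) (2 * m) m 1 hk1]
        refine Finset.prod_congr rfl fun i _ => ?_
        split_ifs <;> rw [hnm] <;> ring
      have r2' : ∏ i ∈ Iᶜ, (if i = j then m + 1 else (-1 : ℤ)) = (m + 1) * (-1) ^ (k - 1) := by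
        rw [← hI, prod_ite_card Iᶜ (fun i => i = j) (m + 1) (-1) 1 hk1, pow_one]
      have r3 : ∏ i ∈ Iᶜ, ((if i = j ∨ i = l then (-1 : ℤ) else 1) * n +
          (if i = j ∨ i = l then m + 1 else -1) * 3) = (2 * m) ^ 2 * m ^ (k - 2) := by
        rw [← hI, ← prod_ite_card Iᶜ (fun i => i = j ∨ i = l) (2 * m) m 2 hk2]
        refine Finset.prod_congr rfl fun i _ => ?_
        split_ifs <;> rw [hnm] <;> ring
      have r3' : ∏ i ∈ Iᶜ, (if i = j ∨ i = l then m + 1 else (-1 : ℤ)) =
          (m + 1) ^ 2 * (-1) ^ (k - 2) := by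
        rw [← hI, prod_ite_card Iᶜ (fun i => i = j ∨ i = l) (m + 1) (-1) 2 hk2]
      rw [r1, r1'] at e1
      rw [r2, r2'] at e2
      rw [r3, r3'] at e3
      -- signs of the left-hand sides
      have f2 : 0 ≤ (m + 1) * (-1) ^ (k - 1) * t + 2 * m * m ^ (k - 1) := by
        rw [← e2]
        refine Finset.sum_nonneg fun b hb => mul_nonneg (Finset.prod_nonneg fun i _ => he b i _)
          (Finset.prod_nonneg fun i _ => ?_)
        rcases hsz b hb i with h | h <;> rw [h] <;> split_ifs <;> linarith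
      have f3 : 0 ≤ (m + 1) ^ 2 * (-1) ^ (k - 2) * t + (2 * m) ^ 2 * m ^ (k - 2) := by
        rw [← e3]
        refine Finset.sum_nonneg fun b hb => mul_nonneg (Finset.prod_nonneg fun i _ => he b i _)
          (Finset.prod_nonneg fun i _ => ?_)
        rcases hsz b hb i with h | h <;> rw [h] <;> split_ifs <;> linarith
      -- the first sum is a multiple of `m ^ k`
      have f1 : ∃ c : ℤ, m ^ k * c = (-1) ^ k * t + m ^ k := by
        rw [← e1]
        refine ⟨∑ b ∈ P, (∏ i ∈ I, e b i (x i)) *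
          ∏ i ∈ Iᶜ, (if ((b i).card : ℤ) = 1 then 0 else 1), ?_⟩
        rw [Finset.mul_sum]
        refine Finset.sum_congr rfl fun b hb => ?_
        rw [mul_left_comm]
        congr 1
        rw [← hI, ← Finset.prod_const, ← Finset.prod_mul_distrib]
        refine Finset.prod_congr rfl fun i _ => ?_
        rcases hsz b hb i with h | h
        · rw [h]; simp
        · rw [h, if_neg (by omega)]; ring
      obtain ⟨c, hc⟩ := f1
      have hmk : 0 < m ^ k := pow_pos (by linarith) k
      have hk1' : m ^ k = m * m ^ (k - 1) := by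
        rw [← pow_succ']; congr 1; omega
      have hk2' : m ^ k = m ^ 2 * m ^ (k - 2) := by
        rw [← pow_add]; congr 1; omega
      have hs1 : (-1 : ℤ) ^ k = -(-1) ^ (k - 1) := by
        have : (-1 : ℤ) ^ k = (-1) * (-1) ^ (k - 1) := by
          rw [← pow_succ']; congr 1; omega
        rw [this]; ring
      have hs2 : (-1 : ℤ) ^ k = (-1) ^ (k - 2) := by
        have : (-1 : ℤ) ^ k = (-1) ^ 2 * (-1) ^ (k - 2) := by
          rw [← pow_add]; congr 1; omega
        rw [this]; ring
      set u : ℤ := c - 1 with hu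
      have hcu : (-1 : ℤ) ^ k * t = m ^ k * u := by rw [hu]; linarith
      have g2 : 0 ≤ m ^ k * (2 - (m + 1) * u) := by
        have : (m + 1) * (-1) ^ (k - 1) * t + 2 * m * m ^ (k - 1) =
            m ^ k * (2 - (m + 1) * u) := by
          have h1 : (-1 : ℤ) ^ (k - 1) * t = -(m ^ k * u) := by rw [← hcu, hs1]; ring
          calc (m + 1) * (-1) ^ (k - 1) * t + 2 * m * m ^ (k - 1)
              = (m + 1) * ((-1) ^ (k - 1) * t) + 2 * (m * m ^ (k - 1)) := by ring
            _ = m ^ k * (2 - (m + 1) * u) := by rw [h1, ← hk1']; ring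
        rw [← this]; exact f2
      have g3 : 0 ≤ m ^ k * ((m + 1) ^ 2 * u + 4) := by
        have : (m + 1) ^ 2 * (-1) ^ (k - 2) * t + (2 * m) ^ 2 * m ^ (k - 2) =
            m ^ k * ((m + 1) ^ 2 * u + 4) := by
          have h1 : (-1 : ℤ) ^ (k - 2) * t = m ^ k * u := by rw [← hcu, hs2]
          calc (m + 1) ^ 2 * (-1) ^ (k - 2) * t + (2 * m) ^ 2 * m ^ (k - 2)
              = (m + 1) ^ 2 * ((-1) ^ (k - 2) * t) + 4 * (m ^ 2 * m ^ (k - 2)) := by ring
            _ = m ^ k * ((m + 1) ^ 2 * u + 4) := by rw [h1, ← hk2']; ring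
        rw [← this]; exact f3
      have g2' : 0 ≤ 2 - (m + 1) * u := nonneg_of_mul_nonneg_right g2 hmk
      have g3' : 0 ≤ (m + 1) ^ 2 * u + 4 := nonneg_of_mul_nonneg_right g3 hmk
      have hu0 : u ≤ 0 := by
        by_contra hcon
        have h1 : 1 ≤ u := by omega
        have h2 : (m + 1) * 1 ≤ (m + 1) * u := mul_le_mul_of_nonneg_left h1 (by linarith)
        linarith
      have hu1 : 0 ≤ u := by
        by_contra hcon
        have h1 : u ≤ -1 := by omega
        have h9 : 9 ≤ (m + 1) ^ 2 := sq9 m hm2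
        have h2 : (m + 1) ^ 2 * u ≤ (m + 1) ^ 2 * (-1) :=
          mul_le_mul_of_nonneg_left h1 (by linarith)
        linarith
      have hu2 : u = 0 := le_antisymm hu0 hu1
      rw [hu2, mul_zero] at hcu
      have ht0 : t = 0 := by
        rcases mul_eq_zero.mp hcu with h | h
        · exact absurd h (pow_ne_zero _ (by norm_num))
        · exact h
      rw [ht, hI, sub_eq_zero] at ht0
      exact_mod_cast ht0

/-- thin partitions with three boxes on every line have exactly `3 ^ d` parts -/
theorem thin (P : Finset (Box n d)) (hP : IsOddProperPartition P) (h5 : 5 ≤ n)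
    (hsize : ∀ b ∈ P, ∀ i, (b i).card = 1 ∨ (b i).card = n - 2)
    (hline : ∀ (i : Fin d) (x : Fin d → Fin n), sliceCount P {i}ᶜ x = 3) :
    P.card = 3 ^ d := by
  have h0 : 0 < n := by omega
  have h := thin_slices P hP h5 hsize hline d ∅ (by simp) (fun _ => ⟨0, h0⟩)
  rw [← h]
  unfold sliceCount
  simp

/-- `n = 5` -/
theorem five {d : ℕ} (P : Finset (Box 5 d)) (hP : IsOddProperPartition P)
    (hline : ∀ (i : Fin d) (x : Fin d → Fin 5), sliceCount P {i}ᶜ x = 3) :
    P.card = 3 ^ d := by
  refine thin P hP le_rfl ?_ hline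
  intro b hb i
  have h1 := (hP.1 b hb i).1
  have h2 := (hP.1 b hb i).2
  have h3 : (b i).card ≤ 5 := by
    have := Finset.card_le_univ (b i)
    simpa using this
  have h4 : (b i).card ≠ 5 := by
    intro h
    apply h2
    rw [← Finset.card_eq_iff_eq_univ]
    simpa using h
  obtain ⟨k, hk⟩ := h1
  omega

end Pool.Agent.H34.Reg
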