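import Mathlib
import Pool.Agent.H63.OB.Xor
import Pool.Agent.H34.Reg.Thin

set_option autoImplicit false

namespace Pool.Agent.H34.Reg

open Pool.Agent.H63.OB Finset

variable {n d : ℕ}

lemma sliceCount_univ (P : Finset (Box n d)) (hP : IsOddProperPartition P) (x : Fin d → Fin n) :
    sliceCount P univ x = 1 := by
  obtain ⟨b, ⟨hb, hx⟩, hu⟩ := hP.2 x
  unfold sliceCount
  rw [Finset.card_eq_one]
  refine ⟨b, ?_⟩
  ext c
  simp only [Finset.mem_filter, Finset.mem_univ, forall_true_left, Finset.mem_singleton]
  constructor
  · rintro ⟨h1, h2⟩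
    exact hu c ⟨h1, h2⟩
  · rintro rfl
    exact ⟨hb, hx⟩

lemma volume (P : Finset (Box n d)) (hP : IsOddProperPartition P) :
    ∑ b ∈ P, ∏ i, (b i).card = n ^ d := by
  classical
  rcases Nat.eq_zero_or_pos n with h0 | h0
  · subst h0
    rcases Nat.eq_zero_or_pos d with hd | hd
    · subst hd
      obtain ⟨b, ⟨hb, hx⟩, hu⟩ := hP.2 (fun i => i.elim0)
      have : P = {b} := by
        ext c
        rw [Finset.mem_singleton]
        exact ⟨fun h => hu c ⟨h, fun i => i.elim0⟩, fun h => by rw [h]; exact hb⟩
      rw [this]; simp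
    · have : P = ∅ := by
        rw [Finset.eq_empty_iff_forall_notMem]
        intro b hb
        obtain ⟨k, hk⟩ := (hP.1 b hb ⟨0, hd⟩).1
        have : (b ⟨0, hd⟩).card ≤ 0 := by
          have := Finset.card_le_univ (b ⟨0, hd⟩)
          simpa using this
        omega
      rw [this, Finset.sum_empty, zero_pow (by omega)]
  · have h := moment P ∅ univ (by simp) (fun _ => ⟨0, h0⟩) 1
      (fun z => by rw [Finset.empty_union]; exact sliceCount_univ P hP z)
    simp only [Finset.prod_empty, one_mul, Finset.card_univ, Fintype.card_fin, Nat.cast_one,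
      mul_one] at h
    exact_mod_cast h

lemma card_odd (hn : Odd n) (P : Finset (Box n d)) (hP : IsOddProperPartition P) :
    Odd P.card := by
  have h := volume P hP
  have h1 : Odd (∑ b ∈ P, ∏ i, (b i).card) := by rw [h]; exact hn.pow
  rw [Finset.odd_sum_iff_odd_card_odd, Finset.filter_true_of_mem] at h1
  · exact h1
  · intro b hb
    exact Finset.prod_induction _ (fun z : ℕ => Odd z) (fun a b ha hb => ha.mul hb) odd_one
      (fun i _ => (hP.1 b hb i).1)

/-- the slice of a partition at letter `y` in direction `i` -/
noncomputable def slice (P : Finset (Box n (d + 1))) (i : Fin (d + 1)) (y : Fin n) :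
    Finset (Box n d) := by
  classical
  exact (P.filter (fun b => y ∈ b i)).image (fun b j => b (i.succAbove j))

lemma slice_partition (P : Finset (Box n (d + 1))) (hP : IsOddProperPartition P)
    (i : Fin (d + 1)) (y : Fin n) : IsOddProperPartition (slice P i y) := by
  classical
  constructor
  · intro c hc j
    unfold slice at hc
    obtain ⟨b, hb, rfl⟩ := Finset.mem_image.mp hc
    exact hP.1 b (Finset.mem_filter.mp hb).1 _
  · intro x
    obtain ⟨b, ⟨hb, hx⟩, hu⟩ := hP.2 (i.insertNth y x)
    have hbi : y ∈ b i := by
      have := hx i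
      rwa [Fin.insertNth_apply_same] at this
    refine ⟨fun j => b (i.succAbove j), ⟨?_, ?_⟩, ?_⟩
    · unfold slice
      exact Finset.mem_image.mpr ⟨b, Finset.mem_filter.mpr ⟨hb, hbi⟩, rfl⟩
    · intro j
      have := hx (i.succAbove j)
      rwa [Fin.insertNth_apply_succAbove] at this
    · rintro c ⟨hc, hxc⟩
      unfold slice at hc
      obtain ⟨b', hb', rfl⟩ := Finset.mem_image.mp hc
      obtain ⟨hb'P, hb'y⟩ := Finset.mem_filter.mp hb'
      have : b' = b := by
        refine hu b' ⟨hb'P, fun j => ?_⟩
        rcases Fin.eq_self_or_eq_succAbove i j with h | ⟨j', h⟩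
        · rw [h, Fin.insertNth_apply_same]; exact hb'y
        · rw [h, Fin.insertNth_apply_succAbove]; exact hxc j'
      rw [this]

lemma slice_card (P : Finset (Box n (d + 1))) (hP : IsOddProperPartition P)
    (i : Fin (d + 1)) (y : Fin n) :
    (slice P i y).card = (P.filter (fun b => y ∈ b i)).card := by
  classical
  unfold slice
  refine Finset.card_image_of_injOn ?_
  intro b hb b' hb' h
  have hb1 := Finset.mem_filter.mp (Finset.mem_coe.mp hb)
  have hb2 := Finset.mem_filter.mp (Finset.mem_coe.mp hb')
  have hne : ∀ j, (b j).Nonempty := fun j => by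
    rw [← Finset.card_pos]; exact (hP.1 b hb1.1 j).1.pos
  choose z hz using hne
  obtain ⟨c, ⟨hc, hx⟩, hu⟩ := hP.2 (i.insertNth y (fun j => z (i.succAbove j)))
  have e1 : b = c := by
    refine hu b ⟨hb1.1, fun j => ?_⟩
    rcases Fin.eq_self_or_eq_succAbove i j with h | ⟨j', h⟩
    · rw [h, Fin.insertNth_apply_same]; exact hb1.2
    · rw [h, Fin.insertNth_apply_succAbove]; exact hz _
  have e2 : b' = c := by
    refine hu b' ⟨hb2.1, fun j => ?_⟩
    rcases Fin.eq_self_or_eq_succAbove i j with hj | ⟨j', hj⟩
    · rw [hj, Fin.insertNth_apply_same]; exact hb2.2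
    · rw [hj, Fin.insertNth_apply_succAbove]
      have h3 : b (i.succAbove j') = b' (i.succAbove j') := congrFun h j'
      rw [← h3]
      exact hz _
  rw [e1, e2]

lemma sum_side (P : Finset (Box n d)) (i : Fin d) :
    ∑ b ∈ P, (b i).card = ∑ y, (P.filter (fun b => y ∈ b i)).card := by
  classical
  simp_rw [Finset.card_filter]
  rw [Finset.sum_comm]
  refine Finset.sum_congr rfl fun b _ => ?_
  simp

/-- a partition of `[n]` into odd proper parts has at least three parts -/
lemma one_dim (hn : Odd n) (P : Finset (Box n 1)) (hP : IsOddProperPartition P) : 3 ≤ P.card := by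
  have h := uniform_lower hn P hP
  omega

/-- for every odd `n`, partitions of `[n]^2` into odd proper boxes have at least nine parts -/
theorem two_dim (hn : Odd n) (P : Finset (Box n 2)) (hP : IsOddProperPartition P) :
    9 ≤ P.card := by
  classical
  by_contra hcon
  have hlow := uniform_lower hn P hP
  have hodd := card_odd hn P hP
  have h7 : P.card = 7 := by
    obtain ⟨k, hk⟩ := hodd
    omega
  -- line counts
  have hline : ∀ (i : Fin 2) (y : Fin n), 3 ≤ (P.filter (fun b => y ∈ b i)).card := by
    intro i y
    rw [← slice_card P hP i y]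
    exact one_dim hn _ (slice_partition P hP i y)
  have hlodd : ∀ (i : Fin 2) (y : Fin n), Odd (P.filter (fun b => y ∈ b i)).card := by
    intro i y
    rw [← slice_card P hP i y]
    exact card_odd hn _ (slice_partition P hP i y)
  -- inclusion-exclusion
  have hA : ∀ y z : Fin n, (P.filter (fun b => y ∈ b 0)).card + (P.filter (fun b => z ∈ b 1)).card
      + (P.filter (fun b => y ∉ b 0 ∧ z ∉ b 1)).card = P.card + 1 := by
    intro y z
    have h1 : (P.filter (fun b => y ∈ b 0 ∧ z ∈ b 1)).card = 1 := by
      have := sliceCount_univ P hP ![y, z]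
      unfold sliceCount at this
      refine Eq.trans ?_ this
      congr 1
      ext b
      simp [Fin.forall_fin_two]
    have h2 : ∀ b : Box n 2, (if y ∈ b 0 then 1 else 0) + (if z ∈ b 1 then 1 else 0) +
        (if y ∉ b 0 ∧ z ∉ b 1 then 1 else 0) = 1 + (if y ∈ b 0 ∧ z ∈ b 1 then 1 else 0) := by
      intro b
      by_cases h3 : y ∈ b 0 <;> by_cases h4 : z ∈ b 1 <;> simp [h3, h4]
    calc (P.filter (fun b => y ∈ b 0)).card + (P.filter (fun b => z ∈ b 1)).card
        + (P.filter (fun b => y ∉ b 0 ∧ z ∉ b 1)).card
        = ∑ b ∈ P, ((if y ∈ b 0 then 1 else 0) + (if z ∈ b 1 then 1 else 0) +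
          (if y ∉ b 0 ∧ z ∉ b 1 then 1 else 0)) := by
          rw [Finset.sum_add_distrib, Finset.sum_add_distrib, Finset.card_filter,
            Finset.card_filter, Finset.card_filter]
      _ = ∑ b ∈ P, (1 + (if y ∈ b 0 ∧ z ∈ b 1 then 1 else 0)) :=
          Finset.sum_congr rfl fun b _ => h2 b
      _ = P.card + (P.filter (fun b => y ∈ b 0 ∧ z ∈ b 1)).card := by
          rw [Finset.sum_add_distrib, Finset.card_filter, Finset.card_eq_sum_ones]
      _ = P.card + 1 := by rw [h1]
  have hnpos : 0 < n := hn.pos
  by_cases hall : ∀ (i : Fin 2) (y : Fin n), (P.filter (fun b => y ∈ b i)).card = 3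
  · have hreg : SliceRegular P := by
      have key : ∀ (I : Finset (Fin 2)) (x : Fin 2 → Fin n), sliceCount P I x =
          if I = ∅ then P.card else if I = univ then 1 else 3 := by
        intro I x
        by_cases h0 : I = ∅
        · simp [h0, sliceCount]
        · by_cases h1 : I = univ
          · rw [if_neg h0, if_pos h1, h1]
            exact sliceCount_univ P hP x
          · rw [if_neg h0, if_neg h1]
            have h2 : I = {0} ∨ I = {1} := by
              revert h0 h1
              revert I
              decide
            rcases h2 with h2 | h2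
            · rw [h2, sliceCount]
              rw [← hall 0 (x 0)]
              congr 1
              ext b; simp
            · rw [h2, sliceCount]
              rw [← hall 1 (x 1)]
              congr 1
              ext b; simp
      intro I x y
      rw [key, key]
    have := regular hn P hP hreg
    omega
  · push Not at hall
    obtain ⟨i, y, hy⟩ := hall
    have hy5 : 5 ≤ (P.filter (fun b => y ∈ b i)).card := by
      have h1 := hline i y
      obtain ⟨k, hk⟩ := hlodd i y
      omega
    -- some box avoids `y` in direction `i`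
    have hfi : ∀ j : Fin 2, j = 0 ∨ j = 1 := by decide
    rcases hfi i with rfl | rfl
    · have hz : ∀ z, (P.filter (fun b => y ∉ b 0 ∧ z ∉ b 1)).card = 0 := by
        intro z
        have h1 := hA y z
        have h2 := hline 1 z
        omega
      have hlt : (P.filter (fun b => y ∈ b 0)).card < P.card := by
        have h1 := hA y ⟨0, hnpos⟩
        have h2 := hline 1 ⟨0, hnpos⟩
        omega
      have : ∃ b ∈ P, y ∉ b 0 := by
        by_contra hcon2
        push Not at hcon2
        rw [Finset.filter_true_of_mem hcon2] at hlt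
        exact lt_irrefl _ hlt
      obtain ⟨b, hb, hyb⟩ := this
      apply (hP.1 b hb 1).2
      ext z
      simp only [Finset.mem_univ, iff_true]
      by_contra hzb
      have h1 := hz z
      rw [Finset.card_eq_zero, Finset.filter_eq_empty_iff] at h1
      exact h1 hb ⟨hyb, hzb⟩
    · have hz : ∀ z, (P.filter (fun b => z ∉ b 0 ∧ y ∉ b 1)).card = 0 := by
        intro z
        have h1 := hA z y
        have h2 := hline 0 z
        omega
      have hlt : (P.filter (fun b => y ∈ b 1)).card < P.card := by
        have h1 := hA ⟨0, hnpos⟩ y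
        have h2 := hline 0 ⟨0, hnpos⟩
        omega
      have : ∃ b ∈ P, y ∉ b 1 := by
        by_contra hcon2
        push Not at hcon2
        rw [Finset.filter_true_of_mem hcon2] at hlt
        exact lt_irrefl _ hlt
      obtain ⟨b, hb, hyb⟩ := this
      apply (hP.1 b hb 0).2
      ext z
      simp only [Finset.mem_univ, iff_true]
      by_contra hzb
      have h1 := hz z
      rw [Finset.card_eq_zero, Finset.filter_eq_empty_iff] at h1
      exact h1 hb ⟨hzb, hyb⟩

/-- partitions of `[5]^3` into odd proper boxes have at least 25 parts -/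
theorem five_three (P : Finset (Box 5 3)) (hP : IsOddProperPartition P) : 25 ≤ P.card := by
  classical
  have h5 : Odd 5 := by decide
  have hside : ∀ i : Fin 3, 45 ≤ ∑ b ∈ P, (b i).card := by
    intro i
    rw [sum_side]
    have : ∀ y : Fin 5, 9 ≤ (P.filter (fun b => y ∈ b i)).card := by
      intro y
      rw [← slice_card P hP i y]
      exact two_dim h5 _ (slice_partition P hP i y)
    calc 45 = ∑ _y : Fin 5, 9 := by simp
      _ ≤ _ := Finset.sum_le_sum fun y _ => this y
  have hvol := volume P hP
  have hbox : ∀ b ∈ P, 3 * ((b 0).card + (b 1).card + (b 2).card) ≤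
      12 + ∏ i, (b i).card := by
    intro b hb
    have hs : ∀ i, (b i).card = 1 ∨ (b i).card = 3 := by
      intro i
      have h1 := (hP.1 b hb i).1
      have h2 := (hP.1 b hb i).2
      have h3 : (b i).card ≤ 5 := by
        have := Finset.card_le_univ (b i)
        simpa using this
      have h4 : (b i).card ≠ 5 := by
        intro h
        apply h2
        rw [← Finset.card_eq_iff_eq_univ]
        simpa using h
      obtain ⟨k, hk⟩ := h1
      omega
    rw [Fin.prod_univ_three]
    rcases hs 0 with h0 | h0 <;> rcases hs 1 with h1 | h1 <;> rcases hs 2 with h2 | h2 <;>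
      rw [h0, h1, h2] <;> norm_num
  have hsum := Finset.sum_le_sum hbox
  rw [← Finset.mul_sum, Finset.sum_add_distrib, Finset.sum_add_distrib, Finset.sum_add_distrib,
    hvol, Finset.sum_const] at hsum
  have h0 := hside 0
  have h1 := hside 1
  have h2 := hside 2
  simp only [smul_eq_mul] at hsum
  obtain ⟨k, hk⟩ := card_odd h5 P hP
  omega

end Pool.Agent.H34.Reg
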