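import Mathlib
import Pool.Agent.H34.Reg.Main

set_option autoImplicit false

namespace Pool.Agent.H34.Reg

open Pool.Agent.H63.OB Finset

variable {n d : ℕ}

/-- every point can be moved to every other point by a coordinatewise permutation preserving `P` -/
def PointTransitive (P : Finset (Box n d)) : Prop :=
  ∀ x y : Fin d → Fin n, ∃ σ : Fin d → Equiv.Perm (Fin n), (∀ i, σ i (x i) = y i) ∧
    ∀ b ∈ P, (fun i => (b i).map (σ i).toEmbedding) ∈ P

lemma PointTransitive.regular {P : Finset (Box n d)} (h : PointTransitive P) : SliceRegular P := by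
  have key : ∀ (I : Finset (Fin d)) (x y : Fin d → Fin n), sliceCount P I x ≤ sliceCount P I y := by
    intro I x y
    obtain ⟨σ, hσ, hP⟩ := h x y
    unfold sliceCount
    refine Finset.card_le_card_of_injOn (fun b i => (b i).map (σ i).toEmbedding) ?_ ?_
    · intro b hb
      have hb' := Finset.mem_filter.mp (Finset.mem_coe.mp hb)
      refine Finset.mem_coe.mpr (Finset.mem_filter.mpr ⟨hP b hb'.1, fun i hi => ?_⟩)
      rw [← hσ i]
      exact Finset.mem_map_of_mem _ (hb'.2 i hi)
    · intro b _ c _ hbc
      funext i
      exact Finset.map_injective _ (congrFun hbc i)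
  intro I x y
  exact le_antisymm (key I x y) (key I y x)

end Pool.Agent.H34.Reg
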